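import Mathlib

/-!
# MP_df4ecf_al, Q2

The associated graded Lie ring `E_0^*(IA_3)` of the lower central series of `IA_3` is not a free
Lie algebra modulo quadratic relations.
-/

set_option autoImplicit false

noncomputable section

namespace Pool.Agent.Results.MP_df4ecf_al.IAThreeNotQuadratic

open FreeLieAlgebra
open scoped commutatorElement

/-- `IA_n`: the automorphisms of the free group of rank `n` which induce the identity on the
abelianization. -/
def IA (n : ℕ) : Subgroup (MulAut (FreeGroup (Fin n))) where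
  carrier := {φ | ∀ g, Abelianization.of (φ g) = Abelianization.of g}
  one_mem' := fun g => rfl
  mul_mem' := fun {φ ψ} hφ hψ g => (hφ (ψ g)).trans (hψ g)
  inv_mem' := fun {φ} hφ g => by
    have := hφ (φ⁻¹ g)
    rw [← this]
    simp

/-- The `k`-th term `Γ_{k+1} G` of the lower central series (so `Gam G 0 = G`). -/
abbrev Gam (G : Type) [Group G] (k : ℕ) : Subgroup G := (⊤ : Subgroup G).lowerCentralSeries k

/-- The Lie ring `E` together with the maps `φ k : Γ_{k+1} G → E` is a model of the associated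
graded Lie ring `E_0^*(G)`: the kernel of `φ k` is `Γ_{k+2} G` (so `φ k` identifies
`Γ_{k+1} G / Γ_{k+2} G` with its image), `E` is the direct sum of the images of the `φ k`, and the
bracket is induced by the commutator. -/
structure IsAssociatedLieRing (G : Type) [Group G] (E : Type) [LieRing E]
    (φ : ∀ k : ℕ, Additive (Gam G k) →+ E) : Prop where
  ker : ∀ k (x : Gam G k), φ k (Additive.ofMul x) = 0 ↔ (x : G) ∈ Gam G (k + 1)
  internal : DirectSum.IsInternal fun k => (φ k).range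
  lie : ∀ (j k : ℕ) (x : Gam G j) (y : Gam G k) (z : Gam G (j + k + 1)),
    (z : G) = ⁅(x : G), (y : G)⁆ →
      φ (j + k + 1) (Additive.ofMul z) = ⁅φ j (Additive.ofMul x), φ k (Additive.ofMul y)⁆

section free

variable (V : Type) [AddCommGroup V]

/-- The relations expressing that the generators depend additively on the elements of `V`. -/
def addRel : Set (FreeLieAlgebra ℤ V) := {x | ∃ v w, x = of ℤ (v + w) - of ℤ v - of ℤ w}

/-- The free Lie ring `L[V]` on the abelian group `V`. -/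
abbrev LV : Type := FreeLieAlgebra ℤ V ⧸
  (LieSubmodule.lieSpan ℤ (FreeLieAlgebra ℤ V) (addRel V) : LieIdeal ℤ (FreeLieAlgebra ℤ V))

/-- The generators of `L[V]`. -/
def gen (v : V) : LV V := LieSubmodule.Quotient.mk (of ℤ v)

/-- The degree-two part `L_2[V]` of `L[V]`. -/
def degTwo : AddSubgroup (LV V) := AddSubgroup.closure {x | ∃ v w, x = ⁅gen V v, gen V w⁆}

end free

/-- `E_0^*(G)` is a free Lie algebra modulo quadratic relations: the kernel of the natural map
`L[V] → E_0^*(G)`, where `V = G / [G, G]`, is generated as a Lie ideal by its degree-two part. -/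
def FreeModQuadratic (G : Type) [Group G] : Prop :=
  ∃ (E : Type) (_ : LieRing E) (φ : ∀ k : ℕ, Additive (Gam G k) →+ E),
    IsAssociatedLieRing G E φ ∧
    ∃ π : LV (Additive (Abelianization G)) →ₗ⁅ℤ⁆ E,
      (∀ g : G, π (gen _ (Additive.ofMul (Abelianization.of g))) =
        φ 0 (Additive.ofMul (⟨g, trivial⟩ : Gam G 0))) ∧
      π.ker = LieSubmodule.lieSpan ℤ _ {x | x ∈ degTwo (Additive (Abelianization G)) ∧ π x = 0}

/-! ### Truncated Magnus expansions -/

/-- Truncated Magnus expansions: coefficients of degree one and two, and the coefficient of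
`X_1 X_1 X_2`. -/
@[ext] structure Mag where
  a : Fin 3 → ℤ
  b : Fin 3 → Fin 3 → ℤ
  t : ℤ

instance : Mul Mag := ⟨fun u v => ⟨fun i => u.a i + v.a i, fun i j => u.b i j + u.a i * v.a j + v.b i j,
  u.t + u.b 1 1 * v.a 2 + u.a 1 * v.b 1 2 + v.t⟩⟩

instance : One Mag := ⟨⟨fun _ => 0, fun _ _ => 0, 0⟩⟩

instance : Inv Mag := ⟨fun u => ⟨fun i => - u.a i, fun i j => - u.b i j + u.a i * u.a j,
  - u.t + u.b 1 1 * u.a 2 + u.a 1 * u.b 1 2 - u.a 1 * u.a 1 * u.a 2⟩⟩

theorem mul_a (u v : Mag) (i : Fin 3) : (u * v).a i = u.a i + v.a i := rfl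
theorem mul_b (u v : Mag) (i j : Fin 3) : (u * v).b i j = u.b i j + u.a i * v.a j + v.b i j := rfl
theorem mul_t (u v : Mag) : (u * v).t = u.t + u.b 1 1 * v.a 2 + u.a 1 * v.b 1 2 + v.t := rfl
theorem one_a (i : Fin 3) : (1 : Mag).a i = 0 := rfl
theorem one_b (i j : Fin 3) : (1 : Mag).b i j = 0 := rfl
theorem one_t : (1 : Mag).t = 0 := rfl
theorem inv_a (u : Mag) (i : Fin 3) : (u⁻¹).a i = - u.a i := rfl
theorem inv_b (u : Mag) (i j : Fin 3) : (u⁻¹).b i j = - u.b i j + u.a i * u.a j := rfl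
theorem inv_t (u : Mag) :
    (u⁻¹).t = - u.t + u.b 1 1 * u.a 2 + u.a 1 * u.b 1 2 - u.a 1 * u.a 1 * u.a 2 := rfl

instance : Group Mag where
  mul_assoc u v w := by
    ext
    · simp only [mul_a]; ring
    · simp only [mul_a, mul_b]; ring
    · simp only [mul_a, mul_b, mul_t]; ring
  one_mul u := by
    ext
    · simp only [mul_a, one_a]; ring
    · simp only [mul_b, one_a, one_b]; ring
    · simp only [mul_t, one_a, one_b, one_t]; ring
  mul_one u := by
    ext
    · simp only [mul_a, one_a]; ring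
    · simp only [mul_b, one_a, one_b]; ring
    · simp only [mul_t, one_a, one_b, one_t]; ring
  inv_mul_cancel u := by
    ext
    · simp only [mul_a, inv_a, one_a]; ring
    · simp only [mul_b, inv_a, inv_b, one_b]; ring
    · simp only [mul_t, inv_a, inv_b, inv_t, one_t]; ring

/-- the free group of rank three -/
abbrev F3 : Type := FreeGroup (Fin 3)

/-- The truncated Magnus expansion. -/
def mag : F3 →* Mag := FreeGroup.lift fun i => ⟨Pi.single i 1, fun _ _ => 0, 0⟩

theorem mag_of (i : Fin 3) : mag (FreeGroup.of i) = ⟨Pi.single i 1, fun _ _ => 0, 0⟩ :=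
  FreeGroup.lift_apply_of

/-- abelianization coordinates -/
theorem mag_a_eq {g h : F3} (e : Abelianization.of g = Abelianization.of h) (i : Fin 3) :
    (mag g).a i = (mag h).a i := by
  let f : F3 →* Multiplicative ℤ :=
    { toFun := fun g => Multiplicative.ofAdd ((mag g).a i)
      map_one' := by simp [map_one, one_a]
      map_mul' := fun x y => by rw [map_mul, mul_a]; rfl }
  have h1 : Abelianization.lift f (Abelianization.of g) = Abelianization.lift f (Abelianization.of h) := by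
    rw [e]
  exact Multiplicative.ofAdd.injective h1

/-- The subgroup of expansions with `2 b_{11} = a_1 (a_1 - 1)`. -/
def good : Subgroup Mag where
  carrier := {u | ∀ i, 2 * u.b i i = u.a i * (u.a i - 1)}
  one_mem' := fun i => by rw [one_a, one_b]; ring
  mul_mem' := fun {u v} hu hv i => by
    rw [mul_a, mul_b]
    have h1 := hu i
    have h2 := hv i
    linear_combination h1 + h2
  inv_mem' := fun {u} hu i => by
    rw [inv_a, inv_b]
    have h1 := hu i
    linear_combination -h1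

theorem mag_good (g : F3) : mag g ∈ good := by
  have h : Subgroup.map mag ⊤ ≤ good := by
    rw [← FreeGroup.closure_range_of, MonoidHom.map_closure, Subgroup.closure_le]
    rintro _ ⟨_, ⟨i, rfl⟩, rfl⟩
    rw [mag_of]
    intro j
    change 2 * (0 : ℤ) = (Pi.single i 1 : Fin 3 → ℤ) j * ((Pi.single i 1 : Fin 3 → ℤ) j - 1)
    rcases eq_or_ne j i with rfl | hj
    · simp
    · simp [Pi.single_eq_of_ne hj]
  exact h ⟨g, trivial, rfl⟩

section coords

variable (φ : IA 3)

/-- the coefficients of the images of the generators -/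
def mx (i : Fin 3) : Mag := mag (φ.1 (FreeGroup.of i))

theorem mx_a (i j : Fin 3) : (mx φ i).a j = (Pi.single i 1 : Fin 3 → ℤ) j := by
  unfold mx
  rw [mag_a_eq (φ.2 (FreeGroup.of i)), mag_of]

theorem mx_diag (i j : Fin 3) : (mx φ i).b j j = 0 := by
  have h : 2 * (mx φ i).b j j = (mx φ i).a j * ((mx φ i).a j - 1) := mag_good _ j
  rw [mx_a] at h
  rcases eq_or_ne j i with rfl | hj
  · simp at h; exact h
  · simp [Pi.single_eq_of_ne hj] at h; exact h

/-- The action of `φ` on truncated Magnus expansions. -/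
def act : Mag →* Mag where
  toFun u := ⟨u.a, fun i j => u.b i j + ∑ m, u.a m * (mx φ m).b i j,
    u.t + ∑ m, u.a m * (mx φ m).t + ∑ m, u.b 1 m * (mx φ m).b 1 2⟩
  map_one' := by
    ext
    · rfl
    · simp [one_a, one_b]
    · simp [one_a, one_b, one_t]
  map_mul' u v := by
    ext
    · rfl
    · simp only [mul_a, mul_b, Fin.sum_univ_three]; ring
    · simp only [mul_a, mul_b, mul_t, Fin.sum_univ_three, mx_diag]; ring

theorem mag_act (g : F3) : mag (φ.1 g) = act φ (mag g) := by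
  have h : mag.comp (φ.1 : F3 ≃* F3).toMonoidHom = (act φ).comp mag := by
    apply FreeGroup.ext_hom
    intro i
    change mag (φ.1 (FreeGroup.of i)) = act φ (mag (FreeGroup.of i))
    rw [mag_of]
    ext j
    · exact mx_a φ i j
    · rename_i l
      change _ = (0 : ℤ) + ∑ m, (Pi.single i 1 : Fin 3 → ℤ) m * (mx φ m).b j l
      rw [Finset.sum_eq_single i]
      · simp; rfl
      · intro m _ hm
        simp [Pi.single_eq_of_ne hm]
      · simp
    · change _ = (0 : ℤ) + ∑ m, (Pi.single i 1 : Fin 3 → ℤ) m * (mx φ m).t +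
        ∑ m, (0 : ℤ) * (mx φ m).b 1 2
      rw [Finset.sum_eq_single i]
      · simp; rfl
      · intro m _ hm
        simp [Pi.single_eq_of_ne hm]
      · simp
  exact DFunLike.congr_fun h g

end coords

theorem mx_mul (φ ψ : IA 3) (i : Fin 3) : mx (φ * ψ) i = act φ (mx ψ i) :=
  mag_act φ (ψ.1 (FreeGroup.of i))

theorem mx_mul_b (φ ψ : IA 3) (i j l : Fin 3) :
    (mx (φ * ψ) i).b j l = (mx φ i).b j l + (mx ψ i).b j l := by
  rw [mx_mul]
  change (mx ψ i).b j l + ∑ m, (mx ψ i).a m * (mx φ m).b j l = _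
  rw [Finset.sum_eq_single i]
  · rw [mx_a]; simp; ring
  · intro m _ hm
    rw [mx_a]; simp [Pi.single_eq_of_ne hm]
  · simp

theorem mx_mul_t (φ ψ : IA 3) :
    (mx (φ * ψ) 0).t = (mx φ 0).t + (mx ψ 0).t +
      ((mx ψ 0).b 1 0 * (mx φ 0).b 1 2 + (mx ψ 0).b 1 2 * (mx φ 2).b 1 2) := by
  rw [mx_mul]
  change (mx ψ 0).t + ∑ m, (mx ψ 0).a m * (mx φ m).t + ∑ m, (mx ψ 0).b 1 m * (mx φ m).b 1 2 = _
  rw [Fin.sum_univ_three, Fin.sum_univ_three, mx_a, mx_a, mx_a, mx_diag]
  simp
  ring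

/-! ### Lifting from `L[V]` -/

section lift

variable {V E : Type} [AddCommGroup V] [LieRing E]

/-- The extension to the free Lie algebra. -/
def lift0 (f : V →+ E) : FreeLieAlgebra ℤ V →ₗ⁅ℤ⁆ E := FreeLieAlgebra.lift ℤ (fun v => f v)

theorem lift0_of (f : V →+ E) (v : V) : lift0 f (of ℤ v) = f v :=
  FreeLieAlgebra.lift_of_apply (fun v => f v) v

theorem lift_ker (f : V →+ E) :
    (LieSubmodule.lieSpan ℤ (FreeLieAlgebra ℤ V) (addRel V) : LieIdeal ℤ (FreeLieAlgebra ℤ V)) ≤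
      (lift0 f).ker := by
  refine LieSubmodule.lieSpan_le.2 ?_
  rintro _ ⟨v, w, rfl⟩
  change lift0 f (of ℤ (v + w) - of ℤ v - of ℤ w) = 0
  rw [map_sub, map_sub, lift0_of, lift0_of, lift0_of, map_add]
  abel

/-- The universal property of `L[V]`. -/
def liftLV (f : V →+ E) : LV V →ₗ⁅ℤ⁆ E where
  toLinearMap := Submodule.liftQ _ ((lift0 f) : FreeLieAlgebra ℤ V →ₗ[ℤ] E)
    (fun x hx => lift_ker f hx)
  map_lie' := by
    intro x y
    induction x using Quotient.inductionOn' with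
    | h x =>
      induction y using Quotient.inductionOn' with
      | h y => exact LieHom.map_lie (lift0 f) x y

theorem liftLV_gen (f : V →+ E) (v : V) : liftLV f (gen V v) = f v := lift0_of f v

end lift

/-! ### The coordinates of the first two Johnson homomorphisms -/

/-- all coordinates of the first Johnson homomorphism -/
def dat : IA 3 →* Multiplicative (Fin 3 → Fin 3 → Fin 3 → ℤ) :=
  MonoidHom.mk' (fun φ => Multiplicative.ofAdd fun i j l => (mx φ i).b j l) (fun φ ψ => by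
    rw [← ofAdd_add]
    congr 1
    ext i j l
    exact mx_mul_b φ ψ i j l)

theorem dat_one {φ : IA 3} (h : dat φ = 1) (i j l : Fin 3) : (mx φ i).b j l = 0 :=
  congrFun (congrFun (congrFun (Multiplicative.ofAdd.injective h) i) j) l

/-- first coordinate -/
def kk (φ : IA 3) : ℤ := (mx φ 0).b 1 2
/-- second coordinate -/
def cc (φ : IA 3) : ℤ := (mx φ 0).b 1 0 - (mx φ 2).b 1 2
/-- a coordinate of the second Johnson homomorphism -/
def tt (φ : IA 3) : ℤ := (mx φ 0).t

theorem kk_mul (φ ψ : IA 3) : kk (φ * ψ) = kk φ + kk ψ := mx_mul_b φ ψ 0 1 2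
theorem cc_mul (φ ψ : IA 3) : cc (φ * ψ) = cc φ + cc ψ := by
  unfold cc
  rw [mx_mul_b, mx_mul_b]
  ring

theorem kk_one' {φ : IA 3} (h : dat φ = 1) : kk φ = 0 := dat_one h _ _ _
theorem cc_one' {φ : IA 3} (h : dat φ = 1) : cc φ = 0 := by
  unfold cc
  rw [dat_one h, dat_one h, sub_zero]

theorem tt_mul (φ ψ : IA 3) (h : dat φ = 1) : tt (φ * ψ) = tt φ + tt ψ := by
  unfold tt
  rw [mx_mul_t, dat_one h, dat_one h]
  ring

theorem tt_one : tt 1 = 0 := by
  have h := tt_mul 1 1 (map_one _)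
  rw [mul_one] at h
  omega

theorem dat_comm (φ ψ : IA 3) : dat ⁅φ, ψ⁆ = 1 := by
  rw [commutatorElement_def, map_mul, map_mul, map_mul, map_inv, map_inv, mul_comm (dat φ) (dat ψ)]
  group

theorem tt_comm (φ ψ : IA 3) : tt ⁅φ, ψ⁆ = kk φ * cc ψ - kk ψ * cc φ := by
  have h1 : φ * ψ = ⁅φ, ψ⁆ * (ψ * φ) := by rw [commutatorElement_def]; group
  have h2 : tt (φ * ψ) = tt ⁅φ, ψ⁆ + tt (ψ * φ) := by
    conv_lhs => rw [h1]
    exact tt_mul _ _ (dat_comm φ ψ)
  have h3 : tt (φ * ψ) = tt φ + tt ψ +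
    ((mx ψ 0).b 1 0 * kk φ + kk ψ * (mx φ 2).b 1 2) := mx_mul_t φ ψ
  have h4 : tt (ψ * φ) = tt ψ + tt φ +
    ((mx φ 0).b 1 0 * kk ψ + kk φ * (mx ψ 2).b 1 2) := mx_mul_t ψ φ
  unfold cc
  linear_combination h3 - h2 - h4

theorem dat_gam {g : IA 3} (h : g ∈ Gam (IA 3) 1) : dat g = 1 :=
  Abelianization.commutator_subset_ker dat h

/-- kernel of the coordinate of the second Johnson homomorphism -/
def DD : Subgroup (IA 3) where
  carrier := {g | dat g = 1 ∧ tt g = 0}
  one_mem' := ⟨map_one _, tt_one⟩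
  mul_mem' := fun {x y} hx hy => ⟨by rw [map_mul, hx.1, hy.1, one_mul], by
    rw [tt_mul x y hx.1, hx.2, hy.2, add_zero]⟩
  inv_mem' := fun {x} hx => ⟨by rw [map_inv, hx.1, inv_one], by
    have h := tt_mul x x⁻¹ hx.1
    rw [mul_inv_cancel, tt_one, hx.2] at h
    omega⟩

theorem tt_gam {g : IA 3} (h : g ∈ Gam (IA 3) 2) : tt g = 0 := by
  have : Gam (IA 3) 2 ≤ DD := by
    change ⁅Gam (IA 3) 1, (⊤ : Subgroup (IA 3))⁆ ≤ DD
    rw [Subgroup.commutator_le]
    intro x hx y _
    refine ⟨dat_comm x y, ?_⟩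
    rw [tt_comm, kk_one' (dat_gam hx), cc_one' (dat_gam hx)]
    ring
  exact (this h).2

/-- The additive map from the abelianization to the cross product Lie ring. -/
def ff : Additive (Abelianization (IA 3)) →+ (Fin 3 → ℤ) :=
  MonoidHom.toAdditiveLeft (Abelianization.lift
    (MonoidHom.mk' (fun φ => Multiplicative.ofAdd (![kk φ, cc φ, 0] : Fin 3 → ℤ)) (fun φ ψ => by
      rw [← ofAdd_add]
      congr 1
      ext i
      fin_cases i
      · exact kk_mul φ ψ
      · exact cc_mul φ ψ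
      · rfl)))

theorem ff_of (φ : IA 3) :
    ff (Additive.ofMul (Abelianization.of φ)) = ![kk φ, cc φ, 0] := rfl

/-! ### Some elements of `IA_3` -/

/-- the free group of rank two -/
abbrev F2 : Type := FreeGroup (Fin 2)

/-- the inclusion -/
def inc : F2 →* F3 := FreeGroup.map Fin.succ

theorem inc_of (i : Fin 2) : inc (FreeGroup.of i) = FreeGroup.of i.succ := FreeGroup.map.of

/-- right multiplication of the first generator -/
def rEnd (v : F2) : F3 →* F3 :=
  FreeGroup.lift (Fin.cons (FreeGroup.of 0 * inc v) fun i => FreeGroup.of i.succ)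

/-- left multiplication of the first generator -/
def lEnd (v : F2) : F3 →* F3 :=
  FreeGroup.lift (Fin.cons (inc v⁻¹ * FreeGroup.of 0) fun i => FreeGroup.of i.succ)

theorem rEnd_zero (v : F2) : rEnd v (FreeGroup.of 0) = FreeGroup.of 0 * inc v :=
  FreeGroup.lift_apply_of

theorem lEnd_zero (v : F2) : lEnd v (FreeGroup.of 0) = inc v⁻¹ * FreeGroup.of 0 :=
  FreeGroup.lift_apply_of

theorem rEnd_succ (v : F2) (i : Fin 2) : rEnd v (FreeGroup.of i.succ) = FreeGroup.of i.succ :=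
  FreeGroup.lift_apply_of

theorem lEnd_succ (v : F2) (i : Fin 2) : lEnd v (FreeGroup.of i.succ) = FreeGroup.of i.succ :=
  FreeGroup.lift_apply_of

theorem rEnd_inc (v w : F2) : rEnd v (inc w) = inc w := by
  have : (rEnd v).comp inc = inc := by
    apply FreeGroup.ext_hom
    intro i
    rw [MonoidHom.comp_apply, inc_of, rEnd_succ]
  exact DFunLike.congr_fun this w

theorem lEnd_inc (v w : F2) : lEnd v (inc w) = inc w := by
  have : (lEnd v).comp inc = inc := by
    apply FreeGroup.ext_hom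
    intro i
    rw [MonoidHom.comp_apply, inc_of, lEnd_succ]
  exact DFunLike.congr_fun this w

theorem hom_ext3 {M : Type} [Group M] {f g : F3 →* M} (h0 : f (FreeGroup.of 0) = g (FreeGroup.of 0))
    (h1 : ∀ i : Fin 2, f (FreeGroup.of i.succ) = g (FreeGroup.of i.succ)) : f = g := by
  apply FreeGroup.ext_hom
  intro i
  refine Fin.cases h0 h1 i

theorem rEnd_mul (v w : F2) : (rEnd v).comp (rEnd w) = rEnd (v * w) := by
  apply hom_ext3
  · rw [MonoidHom.comp_apply, rEnd_zero, rEnd_zero, map_mul, rEnd_zero, rEnd_inc, map_mul,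
      mul_assoc]
  · intro i
    rw [MonoidHom.comp_apply, rEnd_succ, rEnd_succ, rEnd_succ]

theorem lEnd_mul (v w : F2) : (lEnd v).comp (lEnd w) = lEnd (v * w) := by
  apply hom_ext3
  · rw [MonoidHom.comp_apply, lEnd_zero, lEnd_zero, map_mul, lEnd_zero, lEnd_inc, mul_inv_rev,
      map_mul, mul_assoc]
  · intro i
    rw [MonoidHom.comp_apply, lEnd_succ, lEnd_succ, lEnd_succ]

theorem rEnd_one : rEnd 1 = MonoidHom.id F3 := by
  apply hom_ext3
  · rw [rEnd_zero, map_one, mul_one]; rfl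
  · intro i
    rw [rEnd_succ]; rfl

theorem lEnd_one : lEnd 1 = MonoidHom.id F3 := by
  apply hom_ext3
  · rw [lEnd_zero, inv_one, map_one, one_mul]; rfl
  · intro i
    rw [lEnd_succ]; rfl

/-- right multiplication of the first generator, as an automorphism -/
def rm : F2 →* MulAut F3 where
  toFun v := MonoidHom.toMulEquiv (rEnd v) (rEnd v⁻¹)
    (by rw [rEnd_mul, inv_mul_cancel, rEnd_one]) (by rw [rEnd_mul, mul_inv_cancel, rEnd_one])
  map_one' := by
    ext g
    change rEnd 1 g = g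
    rw [rEnd_one]; rfl
  map_mul' v w := by
    ext g
    change rEnd (v * w) g = rEnd v (rEnd w g)
    rw [← rEnd_mul]; rfl

/-- left multiplication of the first generator, as an automorphism -/
def lm : F2 →* MulAut F3 where
  toFun v := MonoidHom.toMulEquiv (lEnd v) (lEnd v⁻¹)
    (by rw [lEnd_mul, inv_mul_cancel, lEnd_one]) (by rw [lEnd_mul, mul_inv_cancel, lEnd_one])
  map_one' := by
    ext g
    change lEnd 1 g = g
    rw [lEnd_one]; rfl
  map_mul' v w := by
    ext g
    change lEnd (v * w) g = lEnd v (lEnd w g)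
    rw [← lEnd_mul]; rfl

theorem lm_rm (v w : F2) : lm v * rm w = rm w * lm v := by
  have : (lEnd v).comp (rEnd w) = (rEnd w).comp (lEnd v) := by
    apply hom_ext3
    · rw [MonoidHom.comp_apply, MonoidHom.comp_apply, rEnd_zero, lEnd_zero, map_mul, map_mul,
        rEnd_zero, lEnd_zero, rEnd_inc, lEnd_inc, mul_assoc]
    · intro i
      rw [MonoidHom.comp_apply, MonoidHom.comp_apply, rEnd_succ, lEnd_succ, rEnd_succ]
  ext g
  exact DFunLike.congr_fun this g

/-- partial conjugations of the first generator -/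
def cj : F2 →* MulAut F3 where
  toFun v := lm v * rm v
  map_one' := by rw [map_one, map_one, one_mul]
  map_mul' v w := by
    rw [map_mul, map_mul]
    calc lm v * lm w * (rm v * rm w) = lm v * (lm w * rm v) * rm w := by group
      _ = lm v * rm v * (lm w * rm w) := by rw [lm_rm w v]; group

theorem mem_IA_of (φ : MulAut F3)
    (h0 : Abelianization.of (φ (FreeGroup.of 0)) = Abelianization.of (FreeGroup.of 0))
    (h1 : ∀ i : Fin 2, φ (FreeGroup.of i.succ) = FreeGroup.of i.succ) : φ ∈ IA 3 := by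
  have : Abelianization.of.comp (φ : F3 ≃* F3).toMonoidHom = Abelianization.of := by
    apply hom_ext3
    · exact h0
    · intro i
      exact congrArg _ (h1 i)
  intro g
  exact DFunLike.congr_fun this g

theorem cj_mem (v : F2) : cj v ∈ IA 3 := by
  apply mem_IA_of
  · change Abelianization.of (lEnd v (rEnd v (FreeGroup.of 0))) = _
    rw [rEnd_zero, map_mul, lEnd_zero, lEnd_inc, map_mul, map_mul, map_inv, map_inv]
    rw [mul_comm, ← mul_assoc, mul_inv_cancel, one_mul]
  · intro i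
    change lEnd v (rEnd v (FreeGroup.of i.succ)) = _
    rw [rEnd_succ, lEnd_succ]

/-- the first generator of the free group of rank two -/
def xx : F2 := FreeGroup.of 0
/-- the second generator of the free group of rank two -/
def yy : F2 := FreeGroup.of 1

/-- the commutator of the two generators -/
def ww : F2 := ⁅xx, yy⁆

theorem rm_mem : rm ww ∈ IA 3 := by
  apply mem_IA_of
  · change Abelianization.of (rEnd ww (FreeGroup.of 0)) = _
    have : Abelianization.of (inc ww) = 1 := by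
      unfold ww
      rw [map_commutatorElement, map_commutatorElement, commutatorElement_eq_one_iff_mul_comm]
      exact mul_comm _ _
    rw [rEnd_zero, map_mul, this, mul_one]
  · intro i
    exact rEnd_succ ww i

/-- The automorphism `x_0 ↦ x_0 [x_1, x_2]`. -/
def KK : IA 3 := ⟨rm ww, rm_mem⟩
/-- The automorphism `x_0 ↦ x_1⁻¹ x_0 x_1`. -/
def aa : IA 3 := ⟨cj xx, cj_mem _⟩
/-- The automorphism `x_0 ↦ x_2⁻¹ x_0 x_2`. -/
def bb : IA 3 := ⟨cj yy, cj_mem _⟩

theorem comm_helper {M : Type} [Group M] (p q s : M) (h1 : p * q = q * p) (h2 : p * s = s * p) :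
    ⁅p * q, s⁆ = ⁅q, s⁆ := by
  rw [commutatorElement_def, commutatorElement_def, mul_inv_rev]
  have h3 : p * (q * s * q⁻¹) = (q * s * q⁻¹) * p := by
    have : p * q⁻¹ = q⁻¹ * p := by
      rw [mul_inv_eq_iff_eq_mul, mul_assoc, h1, ← mul_assoc, inv_mul_cancel, one_mul]
    calc p * (q * s * q⁻¹) = (p * q) * s * q⁻¹ := by group
      _ = q * (p * s) * q⁻¹ := by rw [h1]; group
      _ = q * s * (p * q⁻¹) := by rw [h2]; group
      _ = _ := by rw [this]; group
  calc p * q * s * (q⁻¹ * p⁻¹) * s⁻¹ = (p * (q * s * q⁻¹)) * p⁻¹ * s⁻¹ := by group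
    _ = q * s * q⁻¹ * s⁻¹ := by rw [h3]; group

theorem key_identity : ⁅KK, ⁅aa, KK⁆⁆ = ⁅⁅aa, bb⁆, ⁅aa, KK⁆⁆ := by
  apply Subtype.ext
  change ⁅rm ww, ⁅cj xx, rm ww⁆⁆ = ⁅⁅cj xx, cj yy⁆, ⁅cj xx, rm ww⁆⁆
  have e1 : ⁅cj xx, rm ww⁆ = rm ⁅xx, ww⁆ := by
    rw [map_commutatorElement]
    exact comm_helper _ _ _ (lm_rm _ _) (lm_rm _ _)
  have e2 : ⁅cj xx, cj yy⁆ = lm ww * rm ww := by
    rw [← map_commutatorElement]; rfl
  rw [e1, e2]
  exact (comm_helper _ _ _ (lm_rm _ _) (lm_rm _ _)).symm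

/-- `[Γ_2, Γ_2] ≤ Γ_4` -/
theorem comm_gam {M : Type} [Group M] {x y z : M} (hz : z ∈ Gam M 1) : ⁅⁅x, y⁆, z⁆ ∈ Gam M 3 := by
  let q : M →* M ⧸ Gam M 3 := QuotientGroup.mk' _
  have hq : ∀ n, (Gam M n).map q = Gam (M ⧸ Gam M 3) n := by
    intro n
    rw [Subgroup.map_lowerCentralSeries, Subgroup.map_top_of_surjective _
      (QuotientGroup.mk'_surjective _)]
  have h0 : Gam (M ⧸ Gam M 3) 3 = ⊥ := by
    rw [← hq]
    rw [← le_bot_iff, Subgroup.map_le_iff_le_comap]
    intro g hg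
    rw [MonoidHom.comap_bot, QuotientGroup.ker_mk']
    exact hg
  have h1 : ⁅⁅(⊤ : Subgroup (M ⧸ Gam M 3)), (⊤ : Subgroup (M ⧸ Gam M 3))⁆,
      Gam (M ⧸ Gam M 3) 1⁆ = ⊥ := by
    apply Subgroup.commutator_commutator_eq_bot_of_rotate
    · have : ⁅(⊤ : Subgroup (M ⧸ Gam M 3)), Gam (M ⧸ Gam M 3) 1⁆ = Gam (M ⧸ Gam M 3) 2 :=
        Subgroup.commutator_comm _ _
      rw [this]
      exact h0
    · exact h0
  have h2 : q ⁅⁅x, y⁆, z⁆ ∈ (⊥ : Subgroup (M ⧸ Gam M 3)) := by
    rw [← h1, map_commutatorElement, map_commutatorElement]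
    refine Subgroup.commutator_mem_commutator (Subgroup.commutator_mem_commutator trivial trivial) ?_
    rw [← hq]
    exact ⟨z, hz, rfl⟩
  rw [Subgroup.mem_bot] at h2
  exact (QuotientGroup.eq_one_iff _).1 h2

theorem comm_mem_one {M : Type} [Group M] (x y : M) : ⁅x, y⁆ ∈ Gam M 1 :=
  Subgroup.commutator_mem_commutator trivial trivial

theorem theta_mem : ⁅KK, ⁅aa, KK⁆⁆ ∈ Gam (IA 3) 3 := by
  rw [key_identity]
  exact comm_gam (comm_mem_one _ _)

/-! ### Values of the coordinates -/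

theorem kk_KK : kk KK = 1 := by
  have h : mx KK 0 = mag (FreeGroup.of 0 * ⁅(FreeGroup.of 1 : F3), (FreeGroup.of 2 : F3)⁆) := by
    change mag (rEnd ww (FreeGroup.of 0)) = _
    rw [rEnd_zero]
    unfold ww xx yy
    rw [map_commutatorElement, inc_of, inc_of]
    rfl
  unfold kk
  rw [h, commutatorElement_def]
  simp [mag_of, mul_b, mul_a, inv_b, inv_a]

theorem cc_KK : cc KK = 0 := by
  have h : mx KK 0 = mag (FreeGroup.of 0 * ⁅(FreeGroup.of 1 : F3), (FreeGroup.of 2 : F3)⁆) := by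
    change mag (rEnd ww (FreeGroup.of 0)) = _
    rw [rEnd_zero]
    unfold ww xx yy
    rw [map_commutatorElement, inc_of, inc_of]
    rfl
  have h2 : mx KK 2 = mag (FreeGroup.of 2) := by
    change mag (rEnd ww (FreeGroup.of (1 : Fin 2).succ)) = _
    rw [rEnd_succ]; rfl
  unfold cc
  rw [h, h2, commutatorElement_def]
  simp [mag_of, mul_b, mul_a, inv_b, inv_a]

theorem kk_aa : kk aa = 0 := by
  have h : mx aa 0 = mag ((FreeGroup.of 1)⁻¹ * FreeGroup.of 0 * FreeGroup.of 1) := by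
    change mag (lEnd xx (rEnd xx (FreeGroup.of 0))) = _
    rw [rEnd_zero, map_mul, lEnd_zero, lEnd_inc]
    unfold xx
    rw [map_inv, inc_of]
    rfl
  unfold kk
  rw [h]
  simp [mag_of, mul_b, mul_a, inv_b, inv_a]

theorem cc_aa : cc aa = -1 := by
  have h : mx aa 0 = mag ((FreeGroup.of 1)⁻¹ * FreeGroup.of 0 * FreeGroup.of 1) := by
    change mag (lEnd xx (rEnd xx (FreeGroup.of 0))) = _
    rw [rEnd_zero, map_mul, lEnd_zero, lEnd_inc]
    unfold xx
    rw [map_inv, inc_of]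
    rfl
  have h2 : mx aa 2 = mag (FreeGroup.of 2) := by
    change mag (lEnd xx (rEnd xx (FreeGroup.of (1 : Fin 2).succ))) = _
    rw [rEnd_succ, lEnd_succ]; rfl
  unfold cc
  rw [h, h2]
  simp [mag_of, mul_b, mul_a, inv_b, inv_a]

/-! ### The theorem -/

attribute [local instance] Cross.lieRing

/-- The additive abelianization. -/
abbrev VV : Type := Additive (Abelianization (IA 3))

/-- the class of an automorphism -/
def cls (g : IA 3) : VV := Additive.ofMul (Abelianization.of g)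

/-- The Lie ring homomorphism which separates the cubic relation from the quadratic ones. -/
def sep : LV VV →ₗ⁅ℤ⁆ (Fin 3 → ℤ) := liftLV ff

theorem sep_gen (g : IA 3) : sep (gen VV (cls g)) = ![kk g, cc g, 0] := liftLV_gen ff (cls g)

theorem cross_val (a b c d : ℤ) :
    (⁅(![a, b, 0] : Fin 3 → ℤ), (![c, d, 0] : Fin 3 → ℤ)⁆ : Fin 3 → ℤ) = ![0, 0, a * d - b * c] := by
  change crossProduct (![a, b, 0] : Fin 3 → ℤ) (![c, d, 0] : Fin 3 → ℤ) = _
  rw [cross_apply]
  simp

theorem not_quadratic : ¬ FreeModQuadratic (IA 3) := by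
  rintro ⟨E, _, φ, hE, π, hπ, hker⟩
  have hπ' : ∀ g : IA 3, π (gen VV (cls g)) = φ 0 (Additive.ofMul (⟨g, trivial⟩ : Gam (IA 3) 0)) := hπ
  have surj : ∀ v : VV, ∃ g : IA 3, v = cls g := by
    intro v
    obtain ⟨g, hg⟩ := QuotientGroup.mk_surjective v.toMul
    exact ⟨g, by unfold cls; rw [show Abelianization.of g = v.toMul from hg]; rfl⟩
  -- the degree two part
  have claim1 : ∀ x ∈ degTwo VV, ∃ g : Gam (IA 3) 1,
      φ 1 (Additive.ofMul g) = π x ∧ sep x = ![0, 0, tt g] := by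
    intro x hx
    induction hx using AddSubgroup.closure_induction with
    | mem x hx =>
      obtain ⟨v, w, rfl⟩ := hx
      obtain ⟨p, rfl⟩ := surj v
      obtain ⟨q, rfl⟩ := surj w
      refine ⟨⟨⁅p, q⁆, comm_mem_one p q⟩, ?_, ?_⟩
      · rw [LieHom.map_lie, hπ', hπ']
        exact hE.lie 0 0 ⟨p, trivial⟩ ⟨q, trivial⟩ ⟨⁅p, q⁆, comm_mem_one p q⟩ rfl
      · rw [LieHom.map_lie, sep_gen, sep_gen, cross_val, tt_comm]
        congr 3
        ring
    | zero =>
      refine ⟨1, ?_, ?_⟩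
      · rw [ofMul_one, map_zero, map_zero]
      · rw [map_zero]
        change 0 = ![0, 0, tt 1]
        rw [tt_one]
        ext i; fin_cases i <;> rfl
    | add x y _ _ hx hy =>
      obtain ⟨g, hg1, hg2⟩ := hx
      obtain ⟨h, hh1, hh2⟩ := hy
      refine ⟨g * h, ?_, ?_⟩
      · rw [ofMul_mul, map_add, map_add, hg1, hh1]
      · rw [map_add, hg2, hh2, Subgroup.coe_mul, tt_mul _ _ (dat_gam g.2)]
        ext i; fin_cases i <;> simp
    | neg x _ hx =>
      obtain ⟨g, hg1, hg2⟩ := hx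
      refine ⟨g⁻¹, ?_, ?_⟩
      · rw [ofMul_inv, map_neg, map_neg, hg1]
      · have h := tt_mul (g : IA 3) (g : IA 3)⁻¹ (dat_gam g.2)
        rw [mul_inv_cancel, tt_one] at h
        have h' : tt ((g⁻¹ : Gam (IA 3) 1) : IA 3) = - tt (g : IA 3) := by
          change tt (g : IA 3)⁻¹ = _
          omega
        rw [map_neg, hg2, h']
        ext i; fin_cases i <;> simp
  have claim2 : π.ker ≤ sep.ker := by
    rw [hker]
    refine LieSubmodule.lieSpan_le.2 ?_
    rintro x ⟨hx, hx0⟩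
    obtain ⟨g, hg1, hg2⟩ := claim1 x hx
    rw [hx0, hE.ker] at hg1
    change sep x = 0
    rw [hg2, tt_gam hg1]
    ext i; fin_cases i <;> rfl
  have claim3 : ⁅gen VV (cls KK), ⁅gen VV (cls aa), gen VV (cls KK)⁆⁆ ∈ π.ker := by
    rw [LieHom.mem_ker, LieHom.map_lie, LieHom.map_lie, hπ', hπ']
    have h1 : φ 1 (Additive.ofMul (⟨⁅aa, KK⁆, comm_mem_one aa KK⟩ : Gam (IA 3) 1)) =
        ⁅φ 0 (Additive.ofMul (⟨aa, trivial⟩ : Gam (IA 3) 0)),
          φ 0 (Additive.ofMul (⟨KK, trivial⟩ : Gam (IA 3) 0))⁆ :=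
      hE.lie 0 0 ⟨aa, trivial⟩ ⟨KK, trivial⟩ ⟨⁅aa, KK⁆, comm_mem_one aa KK⟩ rfl
    rw [← h1]
    have hm : ⁅KK, ⁅aa, KK⁆⁆ ∈ Gam (IA 3) 2 :=
      Subgroup.lowerCentralSeries_antitone _ (by norm_num : 2 ≤ 3) theta_mem
    have h2 : φ (0 + 1 + 1) (Additive.ofMul (⟨⁅KK, ⁅aa, KK⁆⁆, hm⟩ : Gam (IA 3) (0 + 1 + 1))) =
        ⁅φ 0 (Additive.ofMul (⟨KK, trivial⟩ : Gam (IA 3) 0)),
          φ 1 (Additive.ofMul (⟨⁅aa, KK⁆, comm_mem_one aa KK⟩ : Gam (IA 3) 1))⁆ :=
      hE.lie 0 1 ⟨KK, trivial⟩ ⟨⁅aa, KK⁆, comm_mem_one aa KK⟩ ⟨⁅KK, ⁅aa, KK⁆⁆, hm⟩ rfl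
    rw [← h2, hE.ker]
    exact theta_mem
  have h4 := claim2 claim3
  rw [LieHom.mem_ker, LieHom.map_lie, LieHom.map_lie, sep_gen, sep_gen, kk_KK, cc_KK, kk_aa, cc_aa,
    cross_val] at h4
  have h5 : (crossProduct (![1, 0, 0] : Fin 3 → ℤ) ![0, 0, 0 * 0 - -1 * 1] : Fin 3 → ℤ) = 0 := h4
  rw [cross_apply] at h5
  have h6 := congrFun h5 1
  simp at h6

/-- **Q2, negative answer.** -/
theorem result :
    ¬ FreeModQuadratic (IA 3) ∧ ¬ ∀ n : ℕ, 2 ≤ n → FreeModQuadratic (IA n) :=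
  ⟨not_quadratic, fun h => not_quadratic (h 3 (by norm_num))⟩

end Pool.Agent.Results.MP_df4ecf_al.IAThreeNotQuadratic
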